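import Pool.Agent.H4.PX.Tr

set_option autoImplicit false

/-! Extreme values of the derivative at all the zeros of the runs. -/

open Filter Topology MeasureTheory Complex

namespace Pool.Agent.H4.PX

open Pool.Agent.Q97.UM Pool.Agent.H4.IX
open Pool.Agent.Q98.UM (S3 S3_nonneg growth EP_prc supp_zero samp_upper)
open Pool.Agent.Q32.Idx (NoCons N N_split mem_Zf)
open H370 (NN cMTinv)

noncomputable section

/-- the derivative at the point of height `t` of the critical line -/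
def dz (t : ℝ) : ℝ := ‖deriv riemannZeta (1 / 2 + t * I)‖

lemma dz_im {d T : ℝ} (hT : 1 ≤ T) {s : ℂ} (hs : s ∈ ZI d T) : ‖deriv riemannZeta s‖ = dz s.im := by
  obtain ⟨-, h2, -⟩ := ZI_facts hT hs
  unfold dz
  congr 2
  apply Complex.ext <;> simp [h2]

open Classical in
/-- **extreme values** -/
theorem ext_runs {k : ℕ} {I : Set ℕ} {α : ℝ} (hG : Gap k I) (hI : UD α I) (hα : (cMTinv - 1) / 2 < α) :
    ∃ d : ℝ, 0 < d ∧ d ≤ 1 ∧ ∀ ε : ℝ, 0 < ε → ∃ c₀ : ℝ, 0 < c₀ ∧ ∀ᶠ T : ℝ in atTop, ∀ σ : ℝ, σ = 1 ∨ σ = -1 →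
      ∃ a : ℝ, c₀ * Real.sqrt (Real.log T / Real.log (Real.log T)) ≤ a ∧
      3 * Real.log (Real.log T) ≤ c₀ / 2 * Real.sqrt (Real.log T / Real.log (Real.log T)) ∧
      T ^ (1 - ε) ≤ ((RS k d I (fun t => |Real.log (dz t) - σ * a| ≤ 3 * Real.log (Real.log T)) T).card : ℝ) := by
  obtain ⟨c₁, d, θ₁, hc₁, hd0, hd1, hθ₁, -, hav⟩ := avoid_P hG hI hα
  obtain ⟨θ₂, hθ₂, -, hS⟩ := b_SAMP 1 one_pos
  obtain ⟨θ₃, δ₀, hθ₃, hδ₀, hTD⟩ := b_THD 1
  obtain ⟨C₃, hC₃⟩ := Pool.Agent.Erdos456.Mert.mertens_inv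
  refine ⟨d, hd0, hd1, fun ε hε => ?_⟩
  set δ : ℝ := min δ₀ (min (θ₂ / 2) (1 / 40)) with hδd
  have hδ : 0 < δ := by positivity
  have hδ1 : δ ≤ δ₀ := min_le_left _ _
  have hδ2 : δ ≤ θ₂ / 2 := (min_le_right _ _).trans (min_le_left _ _)
  have hδ3 : δ ≤ 1 / 40 := (min_le_right _ _).trans (min_le_right _ _)
  set θ : ℝ := min (min ε 1) (min θ₁ (min (θ₂ / 2) θ₃)) with hθd
  have hθ : 0 < θ := by positivity
  have hθε : θ ≤ ε := (min_le_left _ _).trans (min_le_left _ _)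
  have hθ1 : θ ≤ 1 := (min_le_left _ _).trans (min_le_right _ _)
  have hθθ₁ : θ ≤ θ₁ := (min_le_right _ _).trans (min_le_left _ _)
  have hθθ₂ : θ ≤ θ₂ / 2 := (min_le_right _ _).trans ((min_le_right _ _).trans (min_le_left _ _))
  have hθθ₃ : θ ≤ θ₃ := (min_le_right _ _).trans ((min_le_right _ _).trans (min_le_right _ _))
  obtain ⟨C₁, hC₁, hTD⟩ := hTD δ d hδ hδ1 hd0
  obtain ⟨c₀, C₂, hc₀, hC₂, hR⟩ := Pool.Agent.Q241.UM.t_RES θ hθ hθ1
  have hD := Pool.Agent.Q84.UM.t_DPM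
  set K : ℝ := (C₁ + 2 * C₂) / c₁ + 1 with hK
  have hK0 : 0 < K := by positivity
  have hS3 := S3_nonneg
  set C' : ℝ := 3 / 2 * K + 2 * S3 + |C₃| / 2 with hC'
  refine ⟨c₀, hc₀, ?_⟩
  filter_upwards [hav, hS, hTD, hR, growth δ c₀ C' hδ hc₀, eventually_gt_atTop 1,
    Real.tendsto_log_atTop.eventually_ge_atTop (1 / c₁)]
    with T hav hS hTD hR hgr hT1 hLc σ hσ
  obtain ⟨g1, g2, g3, g4, g5, g6⟩ := hgr
  obtain ⟨N, r, a, hN, hrs, hN2, ha, hRX⟩ := hR σ hσ
  have hT0 : 0 < T := by linarith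
  refine ⟨a, ha, g5, ?_⟩
  set X : ℕ := ⌊T ^ δ⌋₊ with hX
  have hXle : (X : ℝ) ≤ T ^ δ := Nat.floor_le (by positivity)
  have hXT : (X : ℝ) ≤ T := hXle.trans (by
    calc T ^ δ ≤ T ^ (1 : ℝ) := Real.rpow_le_rpow_of_exponent_le hT1.le (by linarith)
      _ = T := Real.rpow_one T)
  have hXge : Real.log T ^ 4 ≤ X := by
    have := Nat.lt_floor_add_one (T ^ δ)
    rw [← hX] at this
    linarith
  have hX3 : 3 ≤ X := by
    have h1 : (3 : ℝ) < X := by
      have := Nat.lt_floor_add_one (T ^ δ)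
      rw [← hX] at this
      linarith
    exact_mod_cast h1.le
  have hRX := hRX X hXge hXT
  set l := Real.log (Real.log T) with hl
  have hl0 : 0 < l := by linarith
  set n2 := N2 N r with hn2
  have hn20 : 0 < n2 := by linarith
  set Λ : ℝ := Real.log T * (T * n2) with hΛ
  have hL0 : 0 < Real.log T := by linarith
  have hΛ0 : 0 < Λ := by positivity
  set F : ℝ → ℂ := dp N r with hF
  have hDs := (hTD N (hN.trans (Real.rpow_le_rpow_of_exponent_le hT1.le hθθ₃)) r).1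
  simp only [pow_one] at hDs
  rw [mul_assoc C₁] at hDs
  set Ds : ℂ → ℝ := fun s =>
    |Real.log ‖deriv riemannZeta s‖ - l - EP X s.im| with hDsd
  have hDs' : ∑ s ∈ ZI d T, Ds s * ‖F s.im‖ ^ 2 ≤ C₁ * Λ := hDs
  -- the resonator
  set G : ℕ → ℂ := fun n => cv (prc X) r n - σ * a * r n with hGd
  have hprs : ∀ n, prc X n ≠ 0 → 1 ≤ n ∧ n ≤ X := by
    intro n hn
    unfold prc at hn
    by_cases h : n.Prime ∧ n ≤ X
    · exact ⟨h.1.one_lt.le, h.2⟩
    · rw [if_neg h] at hn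
      exact absurd rfl hn
  have hXN : ((X * N : ℕ) : ℝ) ≤ T ^ θ₂ := by
    push_cast
    calc (X : ℝ) * N ≤ T ^ δ * T ^ θ := mul_le_mul hXle hN (Nat.cast_nonneg _) (by positivity)
      _ = T ^ (δ + θ) := (Real.rpow_add hT0 _ _).symm
      _ ≤ T ^ θ₂ := Real.rpow_le_rpow_of_exponent_le hT1.le (by linarith)
  have hNX : N ≤ X * N := Nat.le_mul_of_pos_left N (by omega)
  have hGeq : ∀ t, dp (X * N) G t = (dp X (prc X) t - σ * a) * F t := by
    intro t
    have e1 := hD.1 X N (prc X) r t (supp_zero hprs) (supp_zero hrs)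
    have e2 : dp (X * N) r t = dp N r t := by
      unfold dp
      symm
      refine Finset.sum_subset (Finset.Icc_subset_Icc_right hNX) fun n _ hn => ?_
      by_cases h : r n = 0
      · rw [h, zero_mul]
      · exact absurd (Finset.mem_Icc.mpr (hrs n h)) hn
    have e3 : dp (X * N) G t = dp (X * N) (cv (prc X) r) t - σ * a * dp (X * N) r t := by
      unfold dp
      rw [Finset.mul_sum, ← Finset.sum_sub_distrib]
      refine Finset.sum_congr rfl fun n _ => ?_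
      simp only [hGd]
      ring
    rw [e3, e2, ← e1, hF]
    ring
  have hGup : ∑ s ∈ ZI d T, ‖dp X (prc X) s.im - σ * a‖ ^ 2 * ‖F s.im‖ ^ 2 ≤ 2 * C₂ * l * Λ := by
    have e1 := samp_upper hT0.le hL0.le ((hS (X * N) hXN G).2.2) d
    have e2 : ∀ s ∈ ZI d T, ‖dp (X * N) G s.im‖ ^ 2 =
        ‖dp X (prc X) s.im - σ * a‖ ^ 2 * ‖F s.im‖ ^ 2 := by
      intro s _
      rw [hGeq, norm_mul, mul_pow]
    rw [Finset.sum_congr rfl e2] at e1
    refine e1.trans ?_
    have e3 : 2 * (Real.log T * (T * N2 (X * N) G)) ≤ 2 * (Real.log T * (T * (C₂ * l * n2))) := by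
      have h1 : T * N2 (X * N) G ≤ T * (C₂ * l * n2) := mul_le_mul_of_nonneg_left hRX hT0.le
      have h2 := mul_le_mul_of_nonneg_left h1 hL0.le
      linarith
    refine e3.trans (le_of_eq ?_)
    rw [hΛ]
    ring
  -- the property
  obtain ⟨P, hP⟩ : ∃ P : ℝ → Prop, ∀ t, P t ↔ |Real.log (dz t) - l - EP X t| ≤ K ∧ ‖dp X (prc X) t - σ * a‖ ^ 2 ≤ K * l :=
    ⟨_, fun _ => Iff.rfl⟩
  have hbad : ∑ s ∈ (ZI d T).filter (fun s => ¬ P s.im), w N r s.im ≤ c₁ * Lam T N r := by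
    have e0 : ∑ s ∈ (ZI d T).filter (fun s => ¬ P s.im), w N r s.im ≤
        ∑ s ∈ ZI d T, (Ds s / K + ‖dp X (prc X) s.im - σ * a‖ ^ 2 / (K * l)) * ‖F s.im‖ ^ 2 := by
      refine le_trans (Finset.sum_le_sum (g := fun s => (Ds s / K + ‖dp X (prc X) s.im - σ * a‖ ^ 2 / (K * l)) * ‖F s.im‖ ^ 2) fun s hs => ?_)
        (Finset.sum_le_sum_of_subset_of_nonneg (Finset.filter_subset _ _) fun s _ _ => ?_)
      · obtain ⟨hs1, hs2⟩ := Finset.mem_filter.mp hs
        have h2 : 1 ≤ Ds s / K + ‖dp X (prc X) s.im - σ * a‖ ^ 2 / (K * l) := by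
          have h3 : 0 ≤ Ds s / K := div_nonneg (abs_nonneg _) hK0.le
          have h4 : 0 ≤ ‖dp X (prc X) s.im - σ * a‖ ^ 2 / (K * l) := by positivity
          by_cases h5 : Ds s ≤ K
          · have h6 : K * l < ‖dp X (prc X) s.im - σ * a‖ ^ 2 := by
              by_contra h7
              refine hs2 ((hP _).2 ⟨?_, not_lt.mp h7⟩)
              rw [← dz_im hT1.le hs1]
              exact h5
            have h8 : 1 ≤ ‖dp X (prc X) s.im - σ * a‖ ^ 2 / (K * l) := by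
              rw [le_div_iff₀ (by positivity), one_mul]
              exact h6.le
            linarith
          · have h8 : 1 ≤ Ds s / K := by
              rw [le_div_iff₀ hK0, one_mul]
              exact (not_le.mp h5).le
            linarith
        have h9 : 0 ≤ ‖F s.im‖ ^ 2 := by positivity
        unfold w
        nlinarith
      · have h3 : 0 ≤ Ds s / K := div_nonneg (abs_nonneg _) hK0.le
        positivity
    refine e0.trans ?_
    have e1 : ∀ s ∈ ZI d T, (Ds s / K + ‖dp X (prc X) s.im - σ * a‖ ^ 2 / (K * l)) * ‖F s.im‖ ^ 2 =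
        (1 / K) * (Ds s * ‖F s.im‖ ^ 2) +
          (1 / (K * l)) * (‖dp X (prc X) s.im - σ * a‖ ^ 2 * ‖F s.im‖ ^ 2) := by
      intro s _
      ring
    rw [Finset.sum_congr rfl e1, Finset.sum_add_distrib, ← Finset.mul_sum, ← Finset.mul_sum]
    have e2 := mul_le_mul_of_nonneg_left hDs' (by positivity : 0 ≤ 1 / K)
    have e3 := mul_le_mul_of_nonneg_left hGup (by positivity : 0 ≤ 1 / (K * l))
    have e4 : 1 / (K * l) * (2 * C₂ * l * Λ) = 1 / K * (2 * C₂ * Λ) := by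
      field_simp
    have e5 : 1 / K * (C₁ * Λ) + 1 / K * (2 * C₂ * Λ) = (C₁ + 2 * C₂) / K * Λ := by ring
    have e6 : (C₁ + 2 * C₂) / K ≤ c₁ := by
      rw [div_le_iff₀ hK0, hK]
      have : c₁ * ((C₁ + 2 * C₂) / c₁ + 1) = C₁ + 2 * C₂ + c₁ := by field_simp
      linarith
    have e7 := mul_le_mul_of_nonneg_right e6 hΛ0.le
    have e8 : Lam T N r = Λ := rfl
    rw [e8]
    linarith
  have hgood := hav N (hN.trans (Real.rpow_le_rpow_of_exponent_le hT1.le hθθ₁)) r P hbad (fun _ => N * N2 N r)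
    (fun n _ => Or.inl (w_le N r _))
  rw [Finset.sum_const, nsmul_eq_mul] at hgood
  -- the number of the good zeros
  have hN0 : 0 < N := by
    rcases Nat.eq_zero_or_pos N with h | h
    · exfalso
      have : N2 N r = 0 := by
        rw [h]
        unfold N2
        simp
      linarith
    · exact h
  have hN0' : (0 : ℝ) < N := by exact_mod_cast hN0
  have hcard : c₁ * Λ / (N * n2) ≤ ((RS k d I P T).card : ℝ) := by
    rw [div_le_iff₀ (by positivity)]
    exact hgood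
  have hTN : T ^ (1 - ε) ≤ c₁ * Λ / (N * n2) := by
    have e1 : c₁ * Λ / (N * n2) = c₁ * Real.log T * (T / N) := by
      rw [hΛ]
      field_simp
    rw [e1]
    have e2 : T ^ (1 - ε) ≤ T / N := by
      rw [le_div_iff₀ hN0']
      calc T ^ (1 - ε) * N ≤ T ^ (1 - ε) * T ^ θ := mul_le_mul_of_nonneg_left hN (by positivity)
        _ = T ^ (1 - ε + θ) := (Real.rpow_add hT0 _ _).symm
        _ ≤ T ^ (1 : ℝ) := Real.rpow_le_rpow_of_exponent_le hT1.le (by linarith)
        _ = T := Real.rpow_one T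
    have e3 : 0 ≤ T / N := by positivity
    have e4 : 1 ≤ c₁ * Real.log T := by
      rw [div_le_iff₀ hc₁] at hLc
      linarith
    nlinarith
  have hsub : RS k d I P T ⊆ RS k d I (fun t => |Real.log (dz t) - σ * a| ≤ 3 * l) T := by
    intro n hn
    rw [mem_RS] at hn ⊢
    refine ⟨hn.1, hn.2.1, fun j hj => ⟨(hn.2.2 j hj).1, ?_⟩⟩
    obtain ⟨hs2, hs3⟩ := (hP _).1 (hn.2.2 j hj).2
    set t := ord (n + j) with ht
    have u1 := abs_le.mp (EP_prc hC₃ hX3 t)
    have u2 : Real.log (Real.log X) ≤ l := by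
      refine Real.log_le_log ?_ (Real.log_le_log (by exact_mod_cast (by omega : 0 < X)) hXT)
      exact Real.log_pos (by exact_mod_cast (by omega : 1 < X))
    have u3 := abs_le.mp hs2
    have u4 : ‖dp X (prc X) t - σ * a‖ ≤ (K + l) / 2 := by
      have h1 : ‖dp X (prc X) t - σ * a‖ ^ 2 ≤ ((K + l) / 2) ^ 2 := by
        nlinarith [sq_nonneg (K - l)]
      exact le_of_sq_le_sq h1 (by positivity)
    have u5 : |(dp X (prc X) t).re - σ * a| ≤ (K + l) / 2 := by
      have h1 : (dp X (prc X) t).re - σ * a = (dp X (prc X) t - σ * a).re := by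
        rw [Complex.sub_re]
        congr 1
        have : ((σ : ℂ) * (a : ℂ)) = ((σ * a : ℝ) : ℂ) := by push_cast; ring
        rw [this, Complex.ofReal_re]
      rw [h1]
      exact (abs_re_le_norm _).trans u4
    have u6 := abs_le.mp u5
    have u7 := le_abs_self C₃
    rw [abs_le]
    constructor <;> linarith [u1.1, u1.2, u3.1, u3.2, u6.1, u6.2]
  exact (hTN.trans hcard).trans (by exact_mod_cast Finset.card_le_card hsub)

end

end Pool.Agent.H4.PX
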