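import Pool.Agent.H4.PX.Var
import Pool.Agent.H4.IX.Run2

set_option autoImplicit false

/-! Bad indices, runs and index classes, relative to every Dirichlet polynomial. -/

open Filter Topology MeasureTheory Complex

namespace Pool.Agent.H4.PX

open Pool.Agent.Q97.UM Pool.Agent.H4.IX
open Pool.Agent.Q32.Idx (NoCons N N_split mem_Zf)
open H370 (NN cMTinv)

noncomputable section

/-- the size of the full sum -/
def Lam (T : ℝ) (M : ℕ) (b : ℕ → ℂ) : ℝ := Real.log T * (T * N2 M b)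

/-- the main term -/
def Y (T : ℝ) (M : ℕ) (b : ℕ → ℂ) : ℝ := Real.log T / (2 * Real.pi) * (T * N2 M b)

lemma Lam_nonneg {T : ℝ} (hT : 1 ≤ T) (M : ℕ) (b : ℕ → ℂ) : 0 ≤ Lam T M b := by
  unfold Lam
  have := Real.log_nonneg hT
  have := N2_nonneg M b
  positivity

lemma Lam_Y (T : ℝ) (M : ℕ) (b : ℕ → ℂ) : Lam T M b = 2 * Real.pi * Y T M b := by
  unfold Lam Y
  have := Real.pi_pos
  field_simp

lemma Y_nonneg {T : ℝ} (hT : 1 ≤ T) (M : ℕ) (b : ℕ → ℂ) : 0 ≤ Y T M b := by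
  unfold Y
  have := Real.log_nonneg hT
  have := N2_nonneg M b
  have := Real.pi_pos
  positivity

/-- single terms are negligible -/
lemma bdry {C ε : ℝ} (hC : 0 ≤ C) (hε : 0 < ε) : ∀ᶠ T : ℝ in atTop, ∀ M : ℕ, (M : ℝ) ≤ T ^ (1 / 40 : ℝ) → ∀ b : ℕ → ℂ,
    C * (M * N2 M b) ≤ ε * Y T M b := by
  have h1 : ∀ᶠ T : ℝ in atTop, C * (2 * Real.pi) / ε ≤ T ^ (39 / 40 : ℝ) := (tendsto_rpow_atTop (by norm_num)).eventually_ge_atTop _
  filter_upwards [h1, eventually_ge_atTop (1 : ℝ), Real.tendsto_log_atTop.eventually_ge_atTop 1] with T h1 hT hL M hM b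
  have hT0 : 0 < T := by linarith
  have hpi := Real.pi_pos
  have hn := N2_nonneg M b
  rw [div_le_iff₀ hε] at h1
  have e1 : T ^ (39 / 40 : ℝ) * T ^ (1 / 40 : ℝ) = T := by
    rw [← Real.rpow_add hT0]
    norm_num
  unfold Y
  have h2 : C * M ≤ C * T ^ (1 / 40 : ℝ) := mul_le_mul_of_nonneg_left hM hC
  have h3 : C * T ^ (1 / 40 : ℝ) * (2 * Real.pi) ≤ ε * (Real.log T * T) := by
    calc C * T ^ (1 / 40 : ℝ) * (2 * Real.pi) = (C * (2 * Real.pi)) * T ^ (1 / 40 : ℝ) := by ring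
      _ ≤ (T ^ (39 / 40 : ℝ) * ε) * T ^ (1 / 40 : ℝ) := mul_le_mul_of_nonneg_right h1 (by positivity)
      _ = ε * (T ^ (39 / 40 : ℝ) * T ^ (1 / 40 : ℝ)) := by ring
      _ = ε * (1 * T) := by rw [e1, one_mul]
      _ ≤ ε * (Real.log T * T) := by gcongr
  have h4 : C * M ≤ ε * (Real.log T * T) / (2 * Real.pi) := by
    rw [le_div_iff₀ (by positivity)]
    exact (mul_le_mul_of_nonneg_right h2 (by positivity)).trans h3
  calc C * (M * N2 M b) = (C * M) * N2 M b := by ring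
    _ ≤ (ε * (Real.log T * T) / (2 * Real.pi)) * N2 M b := mul_le_mul_of_nonneg_right h4 hn
    _ = _ := by ring

/-- the sum over all zeros -/
theorem all_b {ε : ℝ} (hε : 0 < ε) : ∃ θ : ℝ, 0 < θ ∧ θ ≤ 1 / 40 ∧ ∀ᶠ T : ℝ in atTop, ∀ M : ℕ, (M : ℝ) ≤ T ^ θ → ∀ b : ℕ → ℂ,
    |∑ n ∈ In T, w M b (ord n) - Y T M b| ≤ ε * Y T M b := by
  obtain ⟨θ, hθ, hθ1, h⟩ := b_SAMP (ε / 10) (by positivity)
  refine ⟨θ, hθ, hθ1, ?_⟩
  filter_upwards [h, eventually_ge_atTop (1 : ℝ)] with T h hT M hM b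
  have h1 := (h M hM b).2.2
  rw [sum_all hT (w M b)]
  refine h1.trans ?_
  have hY := Y_nonneg hT M b
  have e : ε / 10 * Real.log T * (T * N2 M b) = ε / 10 * Lam T M b := by unfold Lam; ring
  rw [e, Lam_Y]
  have hpi := Real.pi_le_four
  nlinarith [mul_nonneg hε.le hY]

open Classical in
/-- bad indices -/
theorem bad_b {ε : ℝ} (hε : 0 < ε) : ∃ d θ : ℝ, 0 < d ∧ d ≤ 1 ∧ 0 < θ ∧ θ ≤ 1 / 40 ∧ ∀ᶠ T : ℝ in atTop, ∀ A : Set ℕ, NoCons A →
    ∀ M : ℕ, (M : ℝ) ≤ T ^ θ → ∀ b : ℕ → ℂ,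
    ∑ n ∈ (In T).filter (fun n => n ∈ A ∧ n ∉ gdi d T), w M b (ord n) ≤ ((cMTinv - 1) / 2 + ε) * Y T M b := by
  obtain ⟨d, θ, hd0, hd1, hθ0, hθ1, h⟩ := sama ε hε
  refine ⟨d, θ, hd0, hd1, hθ0, hθ1, ?_⟩
  filter_upwards [h, eventually_ge_atTop (3 : ℝ)] with T h hT A hA M hM b
  have h1 := h A hA M hM 1 (fun _ => 1) (fun _ => b) (fun t => by
    unfold WT
    rw [Fin.sum_univ_one, one_mul]
    positivity)
  have eW : ∀ t, WT M (fun _ : Fin 1 => (1 : ℝ)) (fun _ => b) t = w M b t := by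
    intro t
    unfold WT w
    rw [Fin.sum_univ_one, one_mul]
  have eM : MW M (fun _ : Fin 1 => (1 : ℝ)) (fun _ => b) = N2 M b := by
    unfold MW
    rw [Fin.sum_univ_one, one_mul]
  have eV : VW M (fun _ : Fin 1 => (1 : ℝ)) (fun _ => b) = N2 M b := by
    unfold VW
    rw [Fin.sum_univ_one, abs_one, one_mul]
  simp only [eW, eM, eV] at h1
  rw [← sum_ord (by linarith) A (w M b), ← sum_good (by linarith) A (w M b)] at h1
  have h2 : ∑ n ∈ (In T).filter (· ∈ A), w M b (ord n) = ∑ n ∈ (In T).filter (fun n => n ∈ A ∧ n ∈ gdi d T), w M b (ord n) +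
      ∑ n ∈ (In T).filter (fun n => n ∈ A ∧ n ∉ gdi d T), w M b (ord n) := by
    rw [← Finset.sum_filter_add_sum_filter_not ((In T).filter (· ∈ A)) (fun n => n ∈ gdi d T), Finset.filter_filter, Finset.filter_filter]
  rw [h2] at h1
  have h3 : Real.log T / (2 * Real.pi) * (T * ((1 - cMTinv) / 2 * N2 M b - ε * N2 M b)) =
      -((cMTinv - 1) / 2 + ε) * Y T M b := by unfold Y; ring
  rw [h3] at h1
  linarith

open Classical in
/-- the sum over the indices `n` with `n + j` in a set is at most the sum over the set, up to the variation -/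
lemma shift_le {T V : ℝ} {M : ℕ} {b : ℕ → ℂ} {j : ℕ}
    (hV : ∑ n ∈ (In T).filter (fun n => n + j ∈ In T), |w M b (ord (n + j)) - w M b (ord n)| ≤ V)
    (P : ℕ → Prop) (hP : ∀ m, P m → m ∈ In T) (Q : ℕ → Prop) (hQ : ∀ n, Q n → P (n + j)) :
    ∑ n ∈ (In T).filter Q, w M b (ord n) ≤ ∑ m ∈ (In T).filter P, w M b (ord m) + V := by
  have h1 : ∑ n ∈ (In T).filter Q, w M b (ord n) ≤ ∑ n ∈ (In T).filter Q, w M b (ord (n + j)) +
      ∑ n ∈ (In T).filter Q, |w M b (ord (n + j)) - w M b (ord n)| := by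
    rw [← Finset.sum_add_distrib]
    refine Finset.sum_le_sum fun n _ => ?_
    have := neg_abs_le (w M b (ord (n + j)) - w M b (ord n))
    linarith
  have h2 : ∑ n ∈ (In T).filter Q, |w M b (ord (n + j)) - w M b (ord n)| ≤ V := by
    refine (Finset.sum_le_sum_of_subset_of_nonneg ?_ fun n _ _ => abs_nonneg _).trans hV
    intro n hn
    rw [Finset.mem_filter] at hn ⊢
    exact ⟨hn.1, hP _ (hQ n hn.2)⟩
  have h3 : ∑ n ∈ (In T).filter Q, w M b (ord (n + j)) ≤ ∑ m ∈ (In T).filter P, w M b (ord m) := by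
    rw [← Finset.sum_image (s := (In T).filter Q) (g := fun n => n + j) (f := fun m => w M b (ord m)) (fun x _ y _ h => by simpa using h)]
    refine Finset.sum_le_sum_of_subset_of_nonneg ?_ fun n _ _ => w_nonneg _ _ _
    intro m hm
    obtain ⟨n, hn, rfl⟩ := Finset.mem_image.1 hm
    have h4 := hQ n (Finset.mem_filter.1 hn).2
    exact Finset.mem_filter.2 ⟨hP _ h4, h4⟩
  linarith

open Classical in
/-- **runs** in arbitrary index sets with gaps, relative to every Dirichlet polynomial -/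
theorem run_b (k : ℕ) {ε : ℝ} (hε : 0 < ε) : ∃ d θ : ℝ, 0 < d ∧ d ≤ 1 ∧ 0 < θ ∧ θ ≤ 1 / 40 ∧ ∀ᶠ T : ℝ in atTop, ∀ I : Set ℕ, Gap k I →
    ∀ M : ℕ, (M : ℝ) ≤ T ^ θ → ∀ b : ℕ → ℂ,
    ∑ n ∈ (In T).filter (· ∈ I), w M b (ord n) ≤ ∑ n ∈ (In T).filter (fun n => n ∈ I ∧ n ∈ run k d T), w M b (ord n) +
      ((cMTinv - 1) / 2 + ε) * Y T M b := by
  obtain ⟨d, θ₀, hd0, hd1, hθ₀, hθ₁, hd⟩ := bad_b (show 0 < ε / 3 by positivity)
  obtain ⟨θ, hθ⟩ : ∃ θ, θ = min θ₀ (ε / (100 * (k + 1) ^ 2)) := ⟨_, rfl⟩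
  have hθ0 : 0 < θ := by rw [hθ]; positivity
  have hθa : θ ≤ θ₀ := by rw [hθ]; exact min_le_left _ _
  have hθb : θ * (k + 1) ^ 2 ≤ ε / 100 := by
    have : θ ≤ ε / (100 * (k + 1) ^ 2) := by rw [hθ]; exact min_le_right _ _
    rw [le_div_iff₀ (by positivity)] at this
    linarith
  refine ⟨d, θ, hd0, hd1, hθ0, hθa.trans hθ₁, ?_⟩
  filter_upwards [hd, var_w hθ0 (hθa.trans hθ₁), bdry (zero_le_one) (show 0 < ε / 3 by positivity), eventually_ge_atTop (3 : ℝ)]
    with T g1 g2 g3 hT I hI M hM b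
  have hY := Y_nonneg (by linarith : 1 ≤ T) M b
  have hM0 : (M : ℝ) ≤ T ^ θ₀ := hM.trans (Real.rpow_le_rpow_of_exponent_le (by linarith) hθa)
  have hM40 : (M : ℝ) ≤ T ^ (1 / 40 : ℝ) := hM.trans (Real.rpow_le_rpow_of_exponent_le (by linarith) (hθa.trans hθ₁))
  have hA := g1 (fb k d T I) (fb_noCons hI) M hM0 b
  have g2 := g2 M hM b
  have g3 := g3 M hM40 b
  rw [one_mul] at g3
  -- the killed starting points
  set K := (In T).filter (fun n => n ∈ I ∧ n ∉ run k d T) with hK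
  have hsplit : ∑ n ∈ (In T).filter (· ∈ I), w M b (ord n) =
      ∑ n ∈ (In T).filter (fun n => n ∈ I ∧ n ∈ run k d T), w M b (ord n) + ∑ n ∈ K, w M b (ord n) := by
    rw [hK, ← Finset.sum_filter_add_sum_filter_not ((In T).filter (· ∈ I)) (fun n => n ∈ run k d T),
      Finset.filter_filter, Finset.filter_filter]
  have hex : ∀ n, n ∉ run k d T → ∃ j, j < k ∧ n + j ∉ gdi d T ∧ ∀ i < j, n + i ∈ gdi d T := by
    intro n hn
    have h1 : ∃ j, j < k ∧ n + j ∉ gdi d T := by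
      unfold run at hn
      simp only [Set.mem_ofPred_eq] at hn
      push Not at hn
      exact hn
    refine ⟨Nat.find h1, (Nat.find_spec h1).1, (Nat.find_spec h1).2, fun i hi => ?_⟩
    have h2 := Nat.find_min h1 hi
    by_contra h3
    exact h2 ⟨hi.trans (Nat.find_spec h1).1, h3⟩
  choose! j hj1 hj2 hj3 using hex
  have hKmem : ∀ n ∈ K, n ∈ In T ∧ n ∈ I ∧ n ∉ run k d T := fun n hn => by
    rw [hK, Finset.mem_filter] at hn
    exact hn
  set K1 := K.filter (fun n => n + j n ∉ In T) with hK1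
  set K3 := K.filter (fun n => n + j n ∈ In T) with hK3
  have hK13 : ∑ n ∈ K, w M b (ord n) = ∑ n ∈ K3, w M b (ord n) + ∑ n ∈ K1, w M b (ord n) := by
    rw [hK3, hK1, Finset.sum_filter_add_sum_filter_not]
  have hc1 : K1.card ≤ 1 := by
    rw [Finset.card_le_one]
    intro n hn m hm
    rw [hK1, Finset.mem_filter] at hn hm
    have hn' := hKmem n hn.1
    have hm' := hKmem m hm.1
    have a1 := hj1 n hn'.2.2
    have a2 := hj1 m hm'.2.2
    have b1 := hn'.1
    have b2 := hm'.1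
    have c1 := hn.2
    have c2 := hm.2
    rw [mem_In] at b1 b2 c1 c2
    exact hI.eq hn'.2.1 hm'.2.1 (by omega) (by omega)
  have h1 : ∑ n ∈ K1, w M b (ord n) ≤ ε / 3 * Y T M b := by
    have h2 := Finset.sum_le_card_nsmul K1 (fun n => w M b (ord n)) (M * N2 M b) fun n _ => w_le M b _
    rw [nsmul_eq_mul] at h2
    have h3 : (K1.card : ℝ) ≤ 1 := by exact_mod_cast hc1
    have h4 : 0 ≤ M * N2 M b := mul_nonneg (Nat.cast_nonneg _) (N2_nonneg M b)
    nlinarith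
  have h3 : ∑ n ∈ K3, w M b (ord n) ≤ ((cMTinv - 1) / 2 + ε / 3) * Y T M b + ε / 3 * Y T M b := by
    have h4 : ∑ n ∈ K3, w M b (ord n) ≤ ∑ n ∈ K3, w M b (ord (n + j n)) +
        ∑ n ∈ K3, |w M b (ord (n + j n)) - w M b (ord n)| := by
      rw [← Finset.sum_add_distrib]
      refine Finset.sum_le_sum fun n _ => ?_
      have := neg_abs_le (w M b (ord (n + j n)) - w M b (ord n))
      linarith
    have h5 : ∑ n ∈ K3, w M b (ord (n + j n)) ≤ ((cMTinv - 1) / 2 + ε / 3) * Y T M b := by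
      refine le_trans ?_ hA
      rw [← Finset.sum_image (s := K3) (g := fun n => n + j n) (f := fun m => w M b (ord m))]
      · refine Finset.sum_le_sum_of_subset_of_nonneg ?_ fun n _ _ => w_nonneg _ _ _
        intro m hm
        obtain ⟨n, hn, rfl⟩ := Finset.mem_image.1 hm
        rw [hK3, Finset.mem_filter] at hn
        have hn' := hKmem n hn.1
        exact Finset.mem_filter.2 ⟨hn.2, ⟨n, hn'.2.1, j n, hj1 n hn'.2.2, rfl, hj2 n hn'.2.2, hj3 n hn'.2.2⟩, hj2 n hn'.2.2⟩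
      · intro n hn m hm h
        have hn := Finset.mem_filter.1 (Finset.mem_coe.1 hn)
        have hm := Finset.mem_filter.1 (Finset.mem_coe.1 hm)
        have hn' := hKmem n hn.1
        have hm' := hKmem m hm.1
        have a1 := hj1 n hn'.2.2
        have a2 := hj1 m hm'.2.2
        simp only at h
        exact hI.eq hn'.2.1 hm'.2.1 (by omega) (by omega)
    have h6 : ∑ n ∈ K3, |w M b (ord (n + j n)) - w M b (ord n)| ≤
        ∑ i ∈ Finset.range k, ∑ n ∈ (In T).filter (fun n => n + i ∈ In T), |w M b (ord (n + i)) - w M b (ord n)| := by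
      have h7 : ∑ n ∈ K3, |w M b (ord (n + j n)) - w M b (ord n)| ≤
          ∑ n ∈ K3, ∑ i ∈ Finset.range k, (if n + i ∈ In T then |w M b (ord (n + i)) - w M b (ord n)| else 0) := by
        refine Finset.sum_le_sum fun n hn => ?_
        rw [hK3, Finset.mem_filter] at hn
        have hn' := hKmem n hn.1
        have h8 := Finset.single_le_sum (f := fun i => if n + i ∈ In T then |w M b (ord (n + i)) - w M b (ord n)| else 0)
          (s := Finset.range k) (fun i _ => by split_ifs <;> positivity) (Finset.mem_range.2 (hj1 n hn'.2.2))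
        simp only [if_pos hn.2] at h8
        exact h8
      refine h7.trans ?_
      rw [Finset.sum_comm]
      refine Finset.sum_le_sum fun i _ => ?_
      rw [← Finset.sum_filter]
      refine Finset.sum_le_sum_of_subset_of_nonneg ?_ fun n _ _ => abs_nonneg _
      intro n hn
      rw [Finset.mem_filter, hK3, Finset.mem_filter] at hn
      exact Finset.mem_filter.2 ⟨(hKmem n hn.1.1).1, hn.2⟩
    have h8 : ∑ i ∈ Finset.range k, ∑ n ∈ (In T).filter (fun n => n + i ∈ In T), |w M b (ord (n + i)) - w M b (ord n)| ≤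
        ε / 3 * Y T M b := by
      have h9 : ∀ i ∈ Finset.range k, ∑ n ∈ (In T).filter (fun n => n + i ∈ In T), |w M b (ord (n + i)) - w M b (ord n)| ≤
          k * (4 * θ * Lam T M b) := by
        intro i hi
        refine (g2 i).trans ?_
        have : (i : ℝ) ≤ k := by exact_mod_cast (Finset.mem_range.1 hi).le
        have hL := Lam_nonneg (by linarith : 1 ≤ T) M b
        exact mul_le_mul_of_nonneg_right this (by unfold Lam at hL; positivity)
      refine (Finset.sum_le_card_nsmul _ _ _ h9).trans ?_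
      rw [Finset.card_range, nsmul_eq_mul, Lam_Y]
      have hpi := Real.pi_le_four
      have hpi0 := Real.pi_pos
      have hk : (0 : ℝ) ≤ k := Nat.cast_nonneg _
      have e1 : (k : ℝ) * (k * (4 * θ * (2 * Real.pi * Y T M b))) = (8 * Real.pi) * (θ * k ^ 2) * Y T M b := by ring
      rw [e1]
      apply mul_le_mul_of_nonneg_right _ hY
      have e2 : θ * k ^ 2 ≤ ε / 100 := by
        refine le_trans ?_ hθb
        gcongr
        linarith
      calc 8 * Real.pi * (θ * k ^ 2) ≤ 8 * 4 * (ε / 100) := by gcongr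
        _ ≤ ε / 3 := by linarith
    linarith
  rw [hsplit, hK13]
  linarith

open Classical in
/-- **index sets of positive uniform density** -/
theorem uni_b {α : ℝ} {I : Set ℕ} (hI : UD α I) {ε : ℝ} (hε : 0 < ε) : ∃ θ : ℝ, 0 < θ ∧ θ ≤ 1 / 40 ∧ ∀ᶠ T : ℝ in atTop,
    ∀ M : ℕ, (M : ℝ) ≤ T ^ θ → ∀ b : ℕ → ℂ, (α - ε) * Y T M b ≤ ∑ n ∈ (In T).filter (· ∈ I), w M b (ord n) := by
  rcases le_or_gt α ε with hα | hα
  · refine ⟨1 / 40, by norm_num, le_rfl, ?_⟩
    filter_upwards [eventually_ge_atTop (1 : ℝ)] with T hT M _ b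
    exact (mul_nonpos_of_nonpos_of_nonneg (by linarith) (Y_nonneg hT M b)).trans (Finset.sum_nonneg fun n _ => w_nonneg _ _ _)
  have hα0 : 0 < α := by linarith
  obtain ⟨L, hL0, hL⟩ := hI (ε / 6) (by positivity)
  have hLr : (0 : ℝ) < L := by exact_mod_cast hL0
  obtain ⟨δ, hδ⟩ : ∃ δ, δ = min 1 (ε / (6 * α)) := ⟨_, rfl⟩
  have hδ0 : 0 < δ := by rw [hδ]; positivity
  have hδ1 : α * δ ≤ ε / 6 := by
    have : δ ≤ ε / (6 * α) := by rw [hδ]; exact min_le_right _ _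
    rw [le_div_iff₀ (by positivity)] at this
    linarith
  obtain ⟨θ₀, hθ₀, hθ₁, hall⟩ := all_b hδ0
  obtain ⟨θ, hθ⟩ : ∃ θ, θ = min θ₀ (ε / (200 * L)) := ⟨_, rfl⟩
  have hθ0 : 0 < θ := by rw [hθ]; positivity
  have hθa : θ ≤ θ₀ := by rw [hθ]; exact min_le_left _ _
  have hθb : θ * L ≤ ε / 200 := by
    have : θ ≤ ε / (200 * L) := by rw [hθ]; exact min_le_right _ _
    rw [le_div_iff₀ (by positivity)] at this
    linarith
  refine ⟨θ, hθ0, hθa.trans hθ₁, ?_⟩
  filter_upwards [hall, var_w hθ0 (hθa.trans hθ₁), bdry (C := L) hLr.le hδ0, eventually_ge_atTop (3 : ℝ)]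
    with T g1 g2 g3 hT M hM b
  have hY := Y_nonneg (by linarith : 1 ≤ T) M b
  have hM0 : (M : ℝ) ≤ T ^ θ₀ := hM.trans (Real.rpow_le_rpow_of_exponent_le (by linarith) hθa)
  have hM40 : (M : ℝ) ≤ T ^ (1 / 40 : ℝ) := hM.trans (Real.rpow_le_rpow_of_exponent_le (by linarith) (hθa.trans hθ₁))
  have g1 := (abs_le.1 (g1 M hM0 b)).1
  have g2 := g2 M hM b
  have g3 := g3 M hM40 b
  set a := N 0 T with ha
  set c := N 0 (2 * T) with hc
  have hIn : ∀ n, n ∈ In T ↔ a < n ∧ n ≤ c := by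
    intro n
    rw [mem_In, ha, hc]
  set X := ∑ n ∈ (In T).filter (· ∈ I), w M b (ord n) with hX
  set Q' := (In T).filter (fun n => n + L ≤ c) with hQ'
  -- double counting
  have h1 : ∀ j ∈ Finset.range L, ∑ m ∈ Q'.filter (fun m => m + (j + 1) ∈ I), w M b (ord m) ≤ X + L * (4 * θ * Lam T M b) := by
    intro j hj
    have hjL := Finset.mem_range.1 hj
    have h2 := shift_le (g2 (j + 1)) (fun m => m ∈ In T ∧ m ∈ I) (fun m h => h.1)
      (fun m => m ∈ In T ∧ m + L ≤ c ∧ m + (j + 1) ∈ I) (by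
        rintro m ⟨h3, h4, h5⟩
        refine ⟨?_, h5⟩
        rw [hIn] at h3 ⊢
        omega)
    have e1 : (In T).filter (fun m => m ∈ In T ∧ m + L ≤ c ∧ m + (j + 1) ∈ I) = Q'.filter (fun m => m + (j + 1) ∈ I) := by
      ext m
      rw [hQ']
      simp only [Finset.mem_filter]
      tauto
    have e2 : (In T).filter (fun m => m ∈ In T ∧ m ∈ I) = (In T).filter (· ∈ I) := by
      ext m
      simp only [Finset.mem_filter]
      tauto
    have h2' : ∑ m ∈ Q'.filter (fun m => m + (j + 1) ∈ I), w M b (ord m) ≤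
        X + ((j + 1 : ℕ) : ℝ) * (4 * θ * (Real.log T * (T * N2 M b))) := by
      rw [hX, ← e1, ← e2]
      convert h2
    refine h2'.trans (add_le_add le_rfl ?_)
    have : ((j + 1 : ℕ) : ℝ) ≤ L := by exact_mod_cast hjL
    have hL := Lam_nonneg (by linarith : 1 ≤ T) M b
    exact mul_le_mul_of_nonneg_right this (by unfold Lam at hL; positivity)
  have h2 : ∑ j ∈ Finset.range L, ∑ m ∈ Q'.filter (fun m => m + (j + 1) ∈ I), w M b (ord m) ≤ L * (X + L * (4 * θ * Lam T M b)) := by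
    have := Finset.sum_le_card_nsmul _ _ _ h1
    rwa [Finset.card_range, nsmul_eq_mul] at this
  have h3 : ∑ j ∈ Finset.range L, ∑ m ∈ Q'.filter (fun m => m + (j + 1) ∈ I), w M b (ord m) =
      ∑ m ∈ Q', ((Set.Ioc m (m + L) ∩ I).ncard : ℝ) * w M b (ord m) := by
    have h4 : ∀ m ∈ Q', ((Set.Ioc m (m + L) ∩ I).ncard : ℝ) * w M b (ord m) =
        ∑ j ∈ Finset.range L, if m + (j + 1) ∈ I then w M b (ord m) else 0 := by
      intro m _
      rw [ncard_shift, ← Finset.sum_filter, Finset.sum_const, nsmul_eq_mul]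
    rw [Finset.sum_congr rfl h4, Finset.sum_comm]
    refine Finset.sum_congr rfl fun j _ => ?_
    rw [Finset.sum_filter]
  have h4 : (α - ε / 6) * L * ∑ m ∈ Q', w M b (ord m) ≤ ∑ m ∈ Q', ((Set.Ioc m (m + L) ∩ I).ncard : ℝ) * w M b (ord m) := by
    rw [Finset.mul_sum]
    exact Finset.sum_le_sum fun m _ => mul_le_mul_of_nonneg_right (hL m) (w_nonneg _ _ _)
  have h5 : (α - ε / 6) * ∑ m ∈ Q', w M b (ord m) ≤ X + L * (4 * θ * Lam T M b) := by
    have : L * ((α - ε / 6) * ∑ m ∈ Q', w M b (ord m)) ≤ L * (X + L * (4 * θ * Lam T M b)) := by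
      calc _ = (α - ε / 6) * L * ∑ m ∈ Q', w M b (ord m) := by ring
        _ ≤ _ := (h4.trans h3.ge).trans h2
    exact le_of_mul_le_mul_left this hLr
  have h6 : ∑ n ∈ In T, w M b (ord n) ≤ ∑ m ∈ Q', w M b (ord m) + L * (M * N2 M b) := by
    rw [← Finset.sum_filter_add_sum_filter_not (In T) (fun n => n + L ≤ c), ← hQ']
    refine add_le_add le_rfl ?_
    have h7 : (In T).filter (fun n => ¬ n + L ≤ c) ⊆ Finset.Ioc (c - L) c := by
      intro m hm
      rw [Finset.mem_filter, hIn] at hm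
      rw [Finset.mem_Ioc]
      omega
    have h8 := Finset.card_le_card h7
    rw [Nat.card_Ioc] at h8
    have h9 := Finset.sum_le_card_nsmul ((In T).filter (fun n => ¬ n + L ≤ c)) (fun n => w M b (ord n)) (M * N2 M b) fun n _ => w_le M b _
    rw [nsmul_eq_mul] at h9
    refine h9.trans (mul_le_mul_of_nonneg_right ?_ (mul_nonneg (Nat.cast_nonneg _) (N2_nonneg M b)))
    exact_mod_cast (by omega : ((In T).filter (fun n => ¬ n + L ≤ c)).card ≤ L)
  have h7 : L * (4 * θ * Lam T M b) ≤ ε / 3 * Y T M b := by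
    rw [Lam_Y]
    have hpi := Real.pi_le_four
    have hpi0 := Real.pi_pos
    calc (L : ℝ) * (4 * θ * (2 * Real.pi * Y T M b)) = 8 * Real.pi * (θ * L) * Y T M b := by ring
      _ ≤ 8 * 4 * (ε / 200) * Y T M b := by gcongr
      _ ≤ ε / 3 * Y T M b := mul_le_mul_of_nonneg_right (by linarith) hY
  have h8 : (1 - 2 * δ) * Y T M b ≤ ∑ m ∈ Q', w M b (ord m) := by linarith
  have h9 : (α - ε / 6) * ((1 - 2 * δ) * Y T M b) ≤ (α - ε / 6) * ∑ m ∈ Q', w M b (ord m) :=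
    mul_le_mul_of_nonneg_left h8 (by linarith)
  have h10 : (α - ε / 2) * Y T M b ≤ (α - ε / 6) * ((1 - 2 * δ) * Y T M b) := by
    rw [← mul_assoc]
    apply mul_le_mul_of_nonneg_right _ hY
    nlinarith
  have h11 : 0 ≤ ε * Y T M b := mul_nonneg hε.le hY
  have h12 : (α - ε / 2) * Y T M b ≤ X + ε / 3 * Y T M b := h10.trans (h9.trans (h5.trans (add_le_add le_rfl h7)))
  have h13 : (α - ε) * Y T M b = (α - ε / 2) * Y T M b - 1 / 2 * (ε * Y T M b) := by ring
  rw [h13]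
  linarith

open Classical in
/-- **the transfer principle**: the runs in an index set of uniform density `> (c - 1)/2` which avoid a given small set of good indices -/
theorem avoid (k : ℕ) {I : Set ℕ} {α : ℝ} (hG : Gap k I) (hI : UD α I) (hα : (cMTinv - 1) / 2 < α) :
    ∃ c₁ d θ : ℝ, 0 < c₁ ∧ 0 < d ∧ d ≤ 1 ∧ 0 < θ ∧ θ ≤ 1 / 40 ∧ ∀ᶠ T : ℝ in atTop, ∀ M : ℕ, (M : ℝ) ≤ T ^ θ → ∀ b : ℕ → ℂ,
      ∀ Bad : Set ℕ, ∑ n ∈ (In T).filter (fun n => n ∈ gdi d T ∧ n ∈ Bad), w M b (ord n) ≤ c₁ * Lam T M b →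
      c₁ * Lam T M b + ∑ n ∈ (In T).filter (fun n => n ∈ I ∧ ∀ j < k, n + j ∈ gdi d T ∧ n + j ∉ Bad), 
        ∑ j ∈ Finset.range k, |w M b (ord (n + j)) - w M b (ord n)| ≤
        ∑ n ∈ (In T).filter (fun n => n ∈ I ∧ ∀ j < k, n + j ∈ gdi d T ∧ n + j ∉ Bad), w M b (ord n) := by
  obtain ⟨β, hβ⟩ : ∃ β, β = α - (cMTinv - 1) / 2 := ⟨_, rfl⟩
  have hβ0 : 0 < β := by rw [hβ]; linarith
  obtain ⟨d, θ₁, hd0, hd1, hθ₁0, hθ₁1, h1⟩ := run_b k (show 0 < β / 8 by positivity)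
  obtain ⟨θ₂, hθ₂0, hθ₂1, h2⟩ := uni_b hI (show 0 < β / 8 by positivity)
  obtain ⟨θ, hθ⟩ : ∃ θ, θ = min (min θ₁ θ₂) (β / (1000 * (k + 1) ^ 2)) := ⟨_, rfl⟩
  have hθ0 : 0 < θ := by rw [hθ]; positivity
  have hθa : θ ≤ θ₁ := by rw [hθ]; exact (min_le_left _ _).trans (min_le_left _ _)
  have hθb : θ ≤ θ₂ := by rw [hθ]; exact (min_le_left _ _).trans (min_le_right _ _)
  have hθc : θ * (k + 1) ^ 2 ≤ β / 1000 := by
    have : θ ≤ β / (1000 * (k + 1) ^ 2) := by rw [hθ]; exact min_le_right _ _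
    rw [le_div_iff₀ (by positivity)] at this
    linarith
  have hpi := Real.pi_le_four
  have hpi0 := Real.pi_pos
  have hk : (0 : ℝ) ≤ k := Nat.cast_nonneg _
  refine ⟨β / (8 * Real.pi * (k + 1)), d, θ, by positivity, hd0, hd1, hθ0, hθa.trans hθ₁1, ?_⟩
  filter_upwards [h1, h2, var_w hθ0 (hθa.trans hθ₁1), eventually_ge_atTop (3 : ℝ)] with T g1 g2 g3 hT M hM b Bad hBad
  have hY := Y_nonneg (by linarith : 1 ≤ T) M b
  have hL := Lam_nonneg (by linarith : 1 ≤ T) M b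
  have g1 := g1 I hG M (hM.trans (Real.rpow_le_rpow_of_exponent_le (by linarith) hθa)) b
  have g2 := g2 M (hM.trans (Real.rpow_le_rpow_of_exponent_le (by linarith) hθb)) b
  have g3 := g3 M hM b
  set R := (In T).filter (fun n => n ∈ I ∧ ∀ j < k, n + j ∈ gdi d T ∧ n + j ∉ Bad) with hR
  have hgIn : ∀ m, m ∈ gdi d T → m ∈ In T := by
    rintro m ⟨s, hs, rfl⟩
    exact gdi_In (by linarith) hs
  -- the variation
  have hvar : ∑ n ∈ R, ∑ j ∈ Finset.range k, |w M b (ord (n + j)) - w M b (ord n)| ≤ β / 8 * Y T M b := by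
    rw [Finset.sum_comm]
    have h9 : ∀ i ∈ Finset.range k, ∑ n ∈ R, |w M b (ord (n + i)) - w M b (ord n)| ≤ k * (4 * θ * Lam T M b) := by
      intro i hi
      have h10 : ∑ n ∈ R, |w M b (ord (n + i)) - w M b (ord n)| ≤
          ∑ n ∈ (In T).filter (fun n => n + i ∈ In T), |w M b (ord (n + i)) - w M b (ord n)| := by
        refine Finset.sum_le_sum_of_subset_of_nonneg ?_ fun n _ _ => abs_nonneg _
        intro n hn
        rw [hR, Finset.mem_filter] at hn
        exact Finset.mem_filter.2 ⟨hn.1, hgIn _ (hn.2.2 i (Finset.mem_range.1 hi)).1⟩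
      refine (h10.trans (g3 i)).trans ?_
      have : (i : ℝ) ≤ k := by exact_mod_cast (Finset.mem_range.1 hi).le
      exact mul_le_mul_of_nonneg_right this (by unfold Lam at hL; positivity)
    refine (Finset.sum_le_card_nsmul _ _ _ h9).trans ?_
    rw [Finset.card_range, nsmul_eq_mul, Lam_Y]
    have e1 : (k : ℝ) * (k * (4 * θ * (2 * Real.pi * Y T M b))) = (8 * Real.pi) * (θ * k ^ 2) * Y T M b := by ring
    rw [e1]
    apply mul_le_mul_of_nonneg_right _ hY
    have e2 : θ * k ^ 2 ≤ β / 1000 := by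
      refine le_trans ?_ hθc
      gcongr
      linarith
    calc 8 * Real.pi * (θ * k ^ 2) ≤ 8 * 4 * (β / 1000) := by gcongr
      _ ≤ β / 8 := by linarith
  -- the runs which meet the bad set
  have hmeet : ∑ n ∈ (In T).filter (fun n => n ∈ I ∧ n ∈ run k d T), w M b (ord n) ≤ ∑ n ∈ R, w M b (ord n) +
      ∑ j ∈ Finset.range k, ∑ n ∈ (In T).filter (fun n => n + j ∈ gdi d T ∧ n + j ∈ Bad), w M b (ord n) := by
    have e1 : ∑ n ∈ (In T).filter (fun n => n ∈ I ∧ n ∈ run k d T), w M b (ord n) = ∑ n ∈ R, w M b (ord n) +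
        ∑ n ∈ (In T).filter (fun n => (n ∈ I ∧ n ∈ run k d T) ∧ ¬ ∀ j < k, n + j ∉ Bad), w M b (ord n) := by
      rw [← Finset.sum_filter_add_sum_filter_not ((In T).filter (fun n => n ∈ I ∧ n ∈ run k d T)) (fun n => ∀ j < k, n + j ∉ Bad),
        Finset.filter_filter, Finset.filter_filter]
      congr 2
      ext n
      rw [hR]
      unfold run
      simp only [Finset.mem_filter, Set.mem_ofPred_eq]
      constructor
      · rintro ⟨a1, ⟨a2, a3⟩, a4⟩
        exact ⟨a1, a2, fun j hj => ⟨a3 j hj, a4 j hj⟩⟩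
      · rintro ⟨a1, a2, a3⟩
        exact ⟨a1, ⟨a2, fun j hj => (a3 j hj).1⟩, fun j hj => (a3 j hj).2⟩
    rw [e1]
    refine add_le_add le_rfl ?_
    simp only [Finset.sum_filter (fun n => _ ∈ gdi d T ∧ _ ∈ Bad)]
    rw [Finset.sum_comm, Finset.sum_filter]
    refine Finset.sum_le_sum fun n hn => ?_
    split_ifs with h
    · obtain ⟨⟨-, a2⟩, a3⟩ := h
      push Not at a3
      obtain ⟨j, hj, hjB⟩ := a3
      have h8 := Finset.single_le_sum (f := fun j => if n + j ∈ gdi d T ∧ n + j ∈ Bad then w M b (ord n) else 0)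
        (s := Finset.range k) (fun i _ => by split_ifs; exacts [w_nonneg _ _ _, le_rfl]) (Finset.mem_range.2 hj)
      simp only [if_pos (show n + j ∈ gdi d T ∧ n + j ∈ Bad from ⟨a2 j hj, hjB⟩)] at h8
      exact h8
    · exact Finset.sum_nonneg fun i _ => by split_ifs; exacts [w_nonneg _ _ _, le_rfl]
  have hmeet2 : ∑ j ∈ Finset.range k, ∑ n ∈ (In T).filter (fun n => n + j ∈ gdi d T ∧ n + j ∈ Bad), w M b (ord n) ≤
      β / 4 * Y T M b + β / 8 * Y T M b := by
    have h9 : ∀ j ∈ Finset.range k, ∑ n ∈ (In T).filter (fun n => n + j ∈ gdi d T ∧ n + j ∈ Bad), w M b (ord n) ≤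
        β / (8 * Real.pi * (k + 1)) * Lam T M b + k * (4 * θ * Lam T M b) := by
      intro j hj
      have h10 := shift_le (g3 j) (fun m => m ∈ gdi d T ∧ m ∈ Bad) (fun m h => hgIn m h.1)
        (fun n => n + j ∈ gdi d T ∧ n + j ∈ Bad) (fun n h => h)
      have : (j : ℝ) ≤ k := by exact_mod_cast (Finset.mem_range.1 hj).le
      have h11 : (j : ℝ) * (4 * θ * Lam T M b) ≤ k * (4 * θ * Lam T M b) := mul_le_mul_of_nonneg_right this (by positivity)
      have h12 : ∑ m ∈ (In T).filter (fun m => m ∈ gdi d T ∧ m ∈ Bad), w M b (ord m) ≤ β / (8 * Real.pi * (k + 1)) * Lam T M b := by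
        convert hBad
      have h13 : ∑ n ∈ (In T).filter (fun n => n + j ∈ gdi d T ∧ n + j ∈ Bad), w M b (ord n) ≤
          ∑ m ∈ (In T).filter (fun m => m ∈ gdi d T ∧ m ∈ Bad), w M b (ord m) + j * (4 * θ * Lam T M b) := by
        unfold Lam
        convert h10
      exact h13.trans (add_le_add h12 h11)
    refine (Finset.sum_le_card_nsmul _ _ _ h9).trans ?_
    rw [Finset.card_range, nsmul_eq_mul, Lam_Y]
    have e0 : (k : ℝ) / (k + 1) ≤ 1 := by rw [div_le_one (by positivity)]; linarith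
    have e1 : (k : ℝ) * (β / (8 * Real.pi * (k + 1)) * (2 * Real.pi * Y T M b) + k * (4 * θ * (2 * Real.pi * Y T M b))) =
        (β / 4 * ((k : ℝ) / (k + 1)) + (8 * Real.pi) * (θ * k ^ 2)) * Y T M b := by
      field_simp
      ring
    rw [e1, ← add_mul]
    apply mul_le_mul_of_nonneg_right _ hY
    have e2 : θ * k ^ 2 ≤ β / 1000 := by
      refine le_trans ?_ hθc
      gcongr
      linarith
    have e3 : 8 * Real.pi * (θ * k ^ 2) ≤ β / 8 := by
      calc 8 * Real.pi * (θ * k ^ 2) ≤ 8 * 4 * (β / 1000) := by gcongr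
        _ ≤ β / 8 := by linarith
    have e4 : β / 4 * ((k : ℝ) / (k + 1)) ≤ β / 4 * 1 := mul_le_mul_of_nonneg_left e0 (by positivity)
    linarith
  have hfin : β / (8 * Real.pi * (k + 1)) * Lam T M b ≤ β / 4 * Y T M b := by
    rw [Lam_Y]
    have e1 : β / (8 * Real.pi * (k + 1)) * (2 * Real.pi * Y T M b) = β / 4 * (1 / (k + 1)) * Y T M b := by
      field_simp
      ring
    rw [e1]
    apply mul_le_mul_of_nonneg_right _ hY
    have e0 : (1 : ℝ) / (k + 1) ≤ 1 := by rw [div_le_one (by positivity)]; linarith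
    nlinarith
  have e5 : (α - β / 8) * Y T M b - ((cMTinv - 1) / 2 + β / 8) * Y T M b = 3 / 4 * β * Y T M b := by
    rw [hβ]; ring
  have e6 : 0 ≤ β * Y T M b := by positivity
  linarith

end

end Pool.Agent.H4.PX
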