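import Pool.Agent.H4.PX.Bad
import Pool.Graph.R_pool_sql_team_seeded_3997aac3.Q97.UM.Base8
import Pool.Graph.R_pool_sql_team_seeded_3997aac3.Q97.UM.Base12

set_option autoImplicit false

/-! The transfer principle for the runs of good zeros whose ordinates have a property. -/

open Filter Topology MeasureTheory Complex

namespace Pool.Agent.H4.PX

open Pool.Agent.Q97.UM Pool.Agent.H4.IX
open Pool.Agent.Q32.Idx (NoCons N N_split mem_Zf)
open H370 (NN cMTinv)

noncomputable section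

open Classical in
/-- the starting points in `I` of the runs of `k` good zeros whose ordinates satisfy `P` -/
def RS (k : ℕ) (d : ℝ) (I : Set ℕ) (P : ℝ → Prop) (T : ℝ) : Finset ℕ :=
  (In T).filter (fun n => n ∈ I ∧ ∀ j < k, n + j ∈ gdi d T ∧ P (ord (n + j)))

open Classical in
lemma mem_RS {k : ℕ} {d : ℝ} {I : Set ℕ} {P : ℝ → Prop} {T : ℝ} {n : ℕ} :
    n ∈ RS k d I P T ↔ n ∈ In T ∧ n ∈ I ∧ ∀ j < k, n + j ∈ gdi d T ∧ P (ord (n + j)) := by
  unfold RS
  rw [Finset.mem_filter]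

open Classical in
/-- the good indices whose ordinates do not satisfy `P` -/
lemma good_sum {d T : ℝ} (hT : 1 ≤ T) (P : ℝ → Prop) (f : ℝ → ℝ) :
    ∑ n ∈ (In T).filter (fun n => n ∈ gdi d T ∧ n ∈ {n | ¬ P (ord n)}), f (ord n) =
      ∑ s ∈ (ZI d T).filter (fun s => ¬ P s.im), f s.im := by
  have h := sum_good (d := d) hT Set.univ (fun t => if ¬ P t then f t else 0)
  have e1 : ZA Set.univ d T = ZI d T := by
    unfold ZA
    ext s
    simp only [Finset.mem_filter, Set.mem_univ, and_true]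
  rw [e1] at h
  rw [Finset.sum_filter (s := ZI d T)]
  rw [← h, ← Finset.sum_filter, Finset.filter_filter]
  refine Finset.sum_congr ?_ fun _ _ => rfl
  ext n
  simp only [Finset.mem_filter, Set.mem_univ, true_and, Set.mem_ofPred_eq]

open Classical in
/-- **the transfer principle** -/
theorem avoid_P {k : ℕ} {I : Set ℕ} {α : ℝ} (hG : Gap k I) (hI : UD α I) (hα : (cMTinv - 1) / 2 < α) :
    ∃ c₁ d θ : ℝ, 0 < c₁ ∧ 0 < d ∧ d ≤ 1 ∧ 0 < θ ∧ θ ≤ 1 / 40 ∧ ∀ᶠ T : ℝ in atTop, ∀ M : ℕ, (M : ℝ) ≤ T ^ θ → ∀ b : ℕ → ℂ,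
      ∀ P : ℝ → Prop, ∑ s ∈ (ZI d T).filter (fun s => ¬ P s.im), w M b s.im ≤ c₁ * Lam T M b →
      ∀ v : ℕ → ℝ, (∀ n ∈ RS k d I P T, w M b (ord n) ≤ v n ∨ ∃ j < k, w M b (ord (n + j)) ≤ v n) →
      c₁ * Lam T M b ≤ ∑ n ∈ RS k d I P T, v n := by
  obtain ⟨c₁, d, θ, hc₁, hd0, hd1, hθ0, hθ1, h⟩ := avoid k hG hI hα
  refine ⟨c₁, d, θ, hc₁, hd0, hd1, hθ0, hθ1, ?_⟩
  filter_upwards [h, eventually_ge_atTop (1 : ℝ)] with T h hT M hM b P hP v hv
  have e2 := good_sum (d := d) hT P (w M b)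
  have h1 := h M hM b {n | ¬ P (ord n)} (by
    refine le_trans (le_of_eq ?_) (e2.trans_le hP)
    congr!)
  have e1 : (In T).filter (fun n => n ∈ I ∧ ∀ j < k, n + j ∈ gdi d T ∧ n + j ∉ {n | ¬ P (ord n)}) = RS k d I P T := by
    unfold RS
    refine Finset.filter_congr fun n _ => ?_
    simp only [Set.mem_ofPred_eq, not_not]
  have h2 : ∑ n ∈ RS k d I P T, w M b (ord n) ≤ ∑ n ∈ RS k d I P T, v n +
      ∑ n ∈ RS k d I P T, ∑ j ∈ Finset.range k, |w M b (ord (n + j)) - w M b (ord n)| := by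
    rw [← Finset.sum_add_distrib]
    refine Finset.sum_le_sum fun n hn => ?_
    rcases hv n hn with h3 | ⟨j, hj, h3⟩
    · have : 0 ≤ ∑ j ∈ Finset.range k, |w M b (ord (n + j)) - w M b (ord n)| := Finset.sum_nonneg fun _ _ => abs_nonneg _
      linarith
    · have h4 := Finset.single_le_sum (f := fun j => |w M b (ord (n + j)) - w M b (ord n)|) (s := Finset.range k)
        (fun _ _ => abs_nonneg _) (Finset.mem_range.2 hj)
      have h5 := neg_abs_le (w M b (ord (n + j)) - w M b (ord n))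
      linarith
  rw [← e1] at h2 ⊢
  have h3 : c₁ * Lam T M b + ∑ n ∈ (In T).filter (fun n => n ∈ I ∧ ∀ j < k, n + j ∈ gdi d T ∧ n + j ∉ {n | ¬ P (ord n)}), 
        ∑ j ∈ Finset.range k, |w M b (ord (n + j)) - w M b (ord n)| ≤
        ∑ n ∈ (In T).filter (fun n => n ∈ I ∧ ∀ j < k, n + j ∈ gdi d T ∧ n + j ∉ {n | ¬ P (ord n)}), w M b (ord n) := by
    convert h1
  linarith

end

end Pool.Agent.H4.PX
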