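import Pool.Agent.H4.IX.Ord
import Pool.Graph.R_pool_sql_team_seeded_3997aac3.Q61.UM.SAMPb
import Pool.Graph.R_pool_sql_team_seeded_3997aac3.Q97.UM.Rh
import Pool.Graph.R_pool_sql_team_seeded_3997aac3.Q97.UM.Base3

set_option autoImplicit false

/-! The variation of the mean square of a Dirichlet polynomial along consecutive zeros. -/

open Filter Topology MeasureTheory Complex

namespace Pool.Agent.H4.PX

open Pool.Agent.Q97.UM Pool.Agent.H4.IX
open Pool.Agent.Q32.Idx (NoCons N N_split mem_Zf)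

noncomputable section

lemma mem_In {T : ℝ} {n : ℕ} : n ∈ In T ↔ N 0 T < n ∧ n ≤ N 0 (2 * T) := by
  unfold In
  rw [Finset.mem_Ioc]

/-- the variation between consecutive zeros -/
lemma var_one {T : ℝ} (hT : 1 ≤ T) {f f' : ℝ → ℝ} (hf : ∀ t, HasDerivAt f (f' t) t) (hc : Continuous f') :
    ∑ n ∈ (In T).filter (fun n => n + 1 ∈ In T), |f (ord (n + 1)) - f (ord n)| ≤ ∫ t in T..(2 * T), |f' t| := by
  obtain ⟨a, ha⟩ : ∃ a, a = N 0 T := ⟨_, rfl⟩
  obtain ⟨b, hb⟩ : ∃ b, b = N 0 (2 * T) := ⟨_, rfl⟩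
  have hIn : ∀ n, n ∈ In T ↔ a < n ∧ n ≤ b := by
    intro n
    rw [mem_In, ha, hb]
  have hci : ∀ x y, IntervalIntegrable (fun t => |f' t|) volume x y := fun x y => hc.abs.intervalIntegrable x y
  have hci' : ∀ x y, IntervalIntegrable f' volume x y := fun x y => hc.intervalIntegrable x y
  have h0 : 0 ≤ ∫ t in T..(2 * T), |f' t| :=
    intervalIntegral.integral_nonneg (by linarith) fun t _ => abs_nonneg _
  rcases lt_or_ge b (a + 2) with hab | hab
  · have : (In T).filter (fun n => n + 1 ∈ In T) = ∅ := by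
      rw [Finset.filter_eq_empty_iff]
      intro n hn hn2
      rw [hIn] at hn hn2
      omega
    rw [this, Finset.sum_empty]
    exact h0
  · have e1 : (In T).filter (fun n => n + 1 ∈ In T) = Finset.Ico (a + 1) b := by
      ext n
      rw [Finset.mem_filter, hIn, hIn, Finset.mem_Ico]
      omega
    rw [e1]
    have h1 : ∀ n ∈ Finset.Ico (a + 1) b, |f (ord (n + 1)) - f (ord n)| ≤ ∫ t in (ord n)..(ord (n + 1)), |f' t| := by
      intro n hn
      rw [Finset.mem_Ico] at hn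
      have h2 : ord n ≤ ord (n + 1) := ord_mono (by linarith) ((hIn _).2 (by omega)) ((hIn _).2 (by omega)) (by omega)
      rw [← intervalIntegral.integral_eq_sub_of_hasDerivAt (fun t _ => hf t) (hci' _ _)]
      exact intervalIntegral.abs_integral_le_integral_abs h2
    refine (Finset.sum_le_sum h1).trans ?_
    rw [intervalIntegral.sum_integral_adjacent_intervals_Ico (a := ord) (by omega) (fun k _ => hci _ _)]
    have h3 := ord_mem (by linarith : 0 ≤ T) ((hIn (a + 1)).2 (by omega))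
    have h4 := ord_mem (by linarith : 0 ≤ T) ((hIn b).2 (by omega))
    have h5 : ord (a + 1) ≤ ord b := ord_mono (by linarith) ((hIn _).2 (by omega)) ((hIn _).2 (by omega)) (by omega)
    rw [← intervalIntegral.integral_add_adjacent_intervals (hci T (ord (a + 1))) (hci (ord (a + 1)) (2 * T)),
      ← intervalIntegral.integral_add_adjacent_intervals (hci (ord (a + 1)) (ord b)) (hci (ord b) (2 * T))]
    have h6 : 0 ≤ ∫ t in T..(ord (a + 1)), |f' t| := intervalIntegral.integral_nonneg h3.1.le fun t _ => abs_nonneg _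
    have h7 : 0 ≤ ∫ t in (ord b)..(2 * T), |f' t| := intervalIntegral.integral_nonneg h4.2 fun t _ => abs_nonneg _
    linarith

/-- the variation between zeros with indices at distance `j` -/
lemma var_shift {T V : ℝ} (f : ℝ → ℝ)
    (h1 : ∑ n ∈ (In T).filter (fun n => n + 1 ∈ In T), |f (ord (n + 1)) - f (ord n)| ≤ V) (j : ℕ) :
    ∑ n ∈ (In T).filter (fun n => n + j ∈ In T), |f (ord (n + j)) - f (ord n)| ≤ j * V := by
  induction j with
  | zero => simp
  | succ j ih =>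
    have hin : ∀ n ∈ (In T).filter (fun n => n + (j + 1) ∈ In T), n ∈ In T ∧ n + j ∈ In T ∧ n + j + 1 ∈ In T := by
      intro n hn
      rw [Finset.mem_filter, mem_In, mem_In] at hn
      rw [mem_In, mem_In, mem_In]
      omega
    have h2 : ∑ n ∈ (In T).filter (fun n => n + (j + 1) ∈ In T), |f (ord (n + (j + 1))) - f (ord n)| ≤
        ∑ n ∈ (In T).filter (fun n => n + (j + 1) ∈ In T), |f (ord (n + j + 1)) - f (ord (n + j))| +
          ∑ n ∈ (In T).filter (fun n => n + (j + 1) ∈ In T), |f (ord (n + j)) - f (ord n)| := by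
      rw [← Finset.sum_add_distrib]
      refine Finset.sum_le_sum fun n _ => ?_
      rw [← add_assoc]
      exact abs_sub_le _ _ _
    have h3 : ∑ n ∈ (In T).filter (fun n => n + (j + 1) ∈ In T), |f (ord (n + j)) - f (ord n)| ≤ j * V := by
      refine (Finset.sum_le_sum_of_subset_of_nonneg ?_ fun n _ _ => abs_nonneg _).trans ih
      intro n hn
      obtain ⟨a1, a2, -⟩ := hin n hn
      exact Finset.mem_filter.2 ⟨a1, a2⟩
    have h4 : ∑ n ∈ (In T).filter (fun n => n + (j + 1) ∈ In T), |f (ord (n + j + 1)) - f (ord (n + j))| ≤ V := by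
      refine le_trans ?_ h1
      rw [← Finset.sum_image (s := (In T).filter (fun n => n + (j + 1) ∈ In T)) (g := fun n => n + j)
        (f := fun m => |f (ord (m + 1)) - f (ord m)|) (fun x _ y _ h => by simpa using h)]
      refine Finset.sum_le_sum_of_subset_of_nonneg ?_ fun n _ _ => abs_nonneg _
      intro m hm
      obtain ⟨n, hn, rfl⟩ := Finset.mem_image.1 hm
      obtain ⟨-, a2, a3⟩ := hin n hn
      exact Finset.mem_filter.2 ⟨a2, a3⟩
    push_cast
    linarith

/-- the weight -/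
def w (M : ℕ) (b : ℕ → ℂ) (t : ℝ) : ℝ := ‖dp M b t‖ ^ 2

lemma w_nonneg (M : ℕ) (b : ℕ → ℂ) (t : ℝ) : 0 ≤ w M b t := sq_nonneg _

lemma N2_nonneg (M : ℕ) (b : ℕ → ℂ) : 0 ≤ N2 M b := Finset.sum_nonneg fun n _ => by positivity

lemma w_le (M : ℕ) (b : ℕ → ℂ) (t : ℝ) : w M b t ≤ M * N2 M b := (Pool.Agent.Q84.UM.t_DPM.2.2 M b t).1

lemma dp_cont (M : ℕ) (b : ℕ → ℂ) : Continuous (dp M b) :=
  continuous_iff_continuousAt.2 fun t => (Pool.Agent.Q61.UM.dp_deriv M b t).continuousAt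

lemma w_deriv (M : ℕ) (b : ℕ → ℂ) (t : ℝ) :
    HasDerivAt (w M b) (2 * inner ℝ (dp M b t) (dp M (Pool.Agent.Q61.UM.bd b) t)) t := by
  have := (Pool.Agent.Q61.UM.dp_deriv M b t).norm_sq
  exact this

lemma N2_bd (M : ℕ) (b : ℕ → ℂ) : N2 M (Pool.Agent.Q61.UM.bd b) ≤ Real.log M ^ 2 * N2 M b :=
  Pool.Agent.Q61.UM.N2_bd M b

/-- **the variation of the weights** -/
theorem var_w {θ : ℝ} (hθ : 0 < θ) (hθ1 : θ ≤ 1 / 40) : ∀ᶠ T : ℝ in atTop, ∀ M : ℕ, (M : ℝ) ≤ T ^ θ → ∀ b : ℕ → ℂ, ∀ j : ℕ,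
    ∑ n ∈ (In T).filter (fun n => n + j ∈ In T), |w M b (ord (n + j)) - w M b (ord n)| ≤
      j * (4 * θ * (Real.log T * (T * N2 M b))) := by
  filter_upwards [mv_rel 1 one_pos, eventually_ge_atTop (3 : ℝ)] with T h1 hT M hM b j
  have hT0 : 0 < T := by linarith
  have hL0 : 0 < Real.log T := Real.log_pos (by linarith)
  refine var_shift _ ?_ j
  refine (var_one (by linarith) (w_deriv M b) ?_).trans ?_
  · exact continuous_const.mul ((dp_cont M b).inner (dp_cont M _))
  have hM40 : (M : ℝ) ≤ T ^ (1 / 40 : ℝ) := hM.trans (Real.rpow_le_rpow_of_exponent_le (by linarith) hθ1)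
  set b' := Pool.Agent.Q61.UM.bd b with hb'
  obtain ⟨lam, hlam⟩ : ∃ lam, lam = θ * Real.log T := ⟨_, rfl⟩
  have hlam0 : 0 < lam := by rw [hlam]; positivity
  have hlogM : 0 ≤ Real.log M ∧ Real.log M ≤ lam := by
    rcases Nat.eq_zero_or_pos M with h | h
    · rw [h]; simp [hlam0.le]
    · have h2 : (1 : ℝ) ≤ M := by exact_mod_cast h
      refine ⟨Real.log_nonneg h2, ?_⟩
      rw [hlam, ← Real.log_rpow hT0]
      exact Real.log_le_log (by linarith) hM
  have h2 : N2 M b' ≤ lam ^ 2 * N2 M b :=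
    (N2_bd M b).trans (mul_le_mul_of_nonneg_right (pow_le_pow_left₀ hlogM.1 hlogM.2 2) (N2_nonneg M b))
  have i1 : IntervalIntegrable (fun t => ‖dp M b t‖ ^ 2) volume T (2 * T) :=
    ((dp_cont M b).norm.pow 2).intervalIntegrable _ _
  have i2 : IntervalIntegrable (fun t => ‖dp M b' t‖ ^ 2) volume T (2 * T) :=
    ((dp_cont M b').norm.pow 2).intervalIntegrable _ _
  have h3 : (∫ t in T..(2 * T), |2 * inner ℝ (dp M b t) (dp M b' t)|) ≤
      ∫ t in T..(2 * T), (lam * ‖dp M b t‖ ^ 2 + lam⁻¹ * ‖dp M b' t‖ ^ 2) := by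
    refine intervalIntegral.integral_mono_on (by linarith) ?_ ?_ ?_
    · exact (continuous_const.mul ((dp_cont M b).inner (dp_cont M b'))).abs.intervalIntegrable _ _
    · exact (i1.const_mul _).add (i2.const_mul _)
    · intro t _
      rw [abs_mul, abs_two]
      have h4 := abs_real_inner_le_norm (dp M b t) (dp M b' t)
      have h5 : 2 * (‖dp M b t‖ * ‖dp M b' t‖) ≤ lam * ‖dp M b t‖ ^ 2 + lam⁻¹ * ‖dp M b' t‖ ^ 2 := by
        have h6 : 0 ≤ lam⁻¹ * (lam * ‖dp M b t‖ - ‖dp M b' t‖) ^ 2 := by positivity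
        have h7 : lam⁻¹ * (lam * ‖dp M b t‖ - ‖dp M b' t‖) ^ 2 =
            lam * ‖dp M b t‖ ^ 2 + lam⁻¹ * ‖dp M b' t‖ ^ 2 - 2 * (‖dp M b t‖ * ‖dp M b' t‖) := by
          field_simp
          ring
        linarith
      linarith
  refine h3.trans ?_
  rw [intervalIntegral.integral_add (i1.const_mul _) (i2.const_mul _), intervalIntegral.integral_const_mul,
    intervalIntegral.integral_const_mul]
  have h4 := (abs_le.1 (h1 M hM40 b)).2
  have h5 := (abs_le.1 (h1 M hM40 b')).2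
  have h6 : (∫ t in T..(2 * T), ‖dp M b t‖ ^ 2) ≤ 2 * (T * N2 M b) := by linarith
  have h7 : (∫ t in T..(2 * T), ‖dp M b' t‖ ^ 2) ≤ 2 * (T * (lam ^ 2 * N2 M b)) := by
    have := mul_le_mul_of_nonneg_left h2 hT0.le
    linarith
  have h8 := mul_le_mul_of_nonneg_left h6 hlam0.le
  have h9 := mul_le_mul_of_nonneg_left h7 (inv_nonneg.2 hlam0.le)
  have e1 : lam⁻¹ * (2 * (T * (lam ^ 2 * N2 M b))) = lam * (2 * (T * N2 M b)) := by
    field_simp
  rw [e1] at h9
  have e2 : 4 * θ * (Real.log T * (T * N2 M b)) = lam * (2 * (T * N2 M b)) + lam * (2 * (T * N2 M b)) := by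
    rw [hlam]; ring
  rw [e2]
  linarith

end

end Pool.Agent.H4.PX
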